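import Pool.Agent.H46.SP.ExistM

/-! Large decomposition groups. -/

set_option autoImplicit false
set_option linter.unusedSectionVars false

namespace Pool.Agent.H58.OP

open NumberField IsDedekindDomain Polynomial
open scoped Pointwise
open Pool.Agent.H46.SP

section
variable {K L : Type} [Field K] [NumberField K] [Field L] [NumberField L] [Algebra K L]

/-- roots of a uniformizer ramify -/
theorem dvd_ramificationIdx
    (v : HeightOneSpectrum (𝓞 K)) (W : HeightOneSpectrum (𝓞 L))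
    (hW : W.asIdeal.under (𝓞 K) = v.asIdeal)
    {π : 𝓞 K} (h1 : π ∈ v.asIdeal) (h2 : π ∉ v.asIdeal ^ 2) {ϖ : 𝓞 L} {m : ℕ}
    (h : ϖ ^ m = algebraMap (𝓞 K) (𝓞 L) π) :
    m ∣ W.asIdeal.ramificationIdx (𝓞 K) := by
  have hlies : W.asIdeal.LiesOver v.asIdeal := ⟨hW.symm⟩
  have hπ0 : π ≠ 0 := by
    rintro rfl
    exact h2 (Ideal.zero_mem _)
  have hinj : Function.Injective (algebraMap (𝓞 K) (𝓞 L)) :=
    FaithfulSMul.algebraMap_injective (𝓞 K) (𝓞 L)
  have hvb : v.asIdeal.map (algebraMap (𝓞 K) (𝓞 L)) ≠ ⊥ :=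
    Ideal.map_ne_bot_of_ne_bot v.ne_bot
  rw [Ideal.IsDedekindDomain.ramificationIdx_eq_multiplicity v.asIdeal W.asIdeal hvb]
  obtain ⟨J, hJ⟩ : v.asIdeal ∣ Ideal.span {π} := by
    rw [Ideal.dvd_iff_le, Ideal.span_singleton_le_iff_mem]
    exact h1
  have hJv : ¬ v.asIdeal ∣ J := by
    rintro ⟨J', rfl⟩
    apply h2
    rw [← Ideal.span_singleton_le_iff_mem, ← Ideal.dvd_iff_le, hJ, sq]
    exact mul_dvd_mul_left _ (dvd_mul_right _ _)
  have hWJ : ¬ W.asIdeal ∣ J.map (algebraMap (𝓞 K) (𝓞 L)) := by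
    intro h3
    rw [Ideal.dvd_iff_le, Ideal.map_le_iff_le_comap] at h3
    apply hJv
    rw [Ideal.dvd_iff_le, ← hW]
    exact h3
  have hWp : Prime W.asIdeal := W.prime
  have h4 : (Ideal.span {ϖ}) ^ m =
      v.asIdeal.map (algebraMap (𝓞 K) (𝓞 L)) * J.map (algebraMap (𝓞 K) (𝓞 L)) := by
    rw [← Ideal.map_mul, ← hJ, Ideal.map_span, Set.image_singleton, ← h, Ideal.span_singleton_pow]
  have h5 : emultiplicity W.asIdeal (v.asIdeal.map (algebraMap (𝓞 K) (𝓞 L))) =
      m * emultiplicity W.asIdeal (Ideal.span {ϖ}) := by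
    rw [← emultiplicity_pow hWp, h4, emultiplicity_mul hWp, emultiplicity_eq_zero.2 hWJ, add_zero]
  have hf1 : FiniteMultiplicity W.asIdeal (v.asIdeal.map (algebraMap (𝓞 K) (𝓞 L))) :=
    FiniteMultiplicity.of_prime_left hWp hvb
  rcases Nat.eq_zero_or_pos m with hm0 | hm0
  · subst hm0
    exfalso
    rw [pow_zero] at h
    have h6 : algebraMap (𝓞 K) (𝓞 L) 1 = algebraMap (𝓞 K) (𝓞 L) π := by rw [map_one, h]
    have h7 := hinj h6
    exact v.isPrime.ne_top ((Ideal.eq_top_iff_one _).2 (h7 ▸ h1))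
  have hϖ0 : (Ideal.span {ϖ} : Ideal (𝓞 L)) ≠ ⊥ := by
    rw [Ne, Ideal.span_singleton_eq_bot]
    rintro rfl
    rw [zero_pow hm0.ne'] at h
    exact hπ0 (hinj (by rw [← h, map_zero]))
  have hf2 : FiniteMultiplicity W.asIdeal (Ideal.span {ϖ}) :=
    FiniteMultiplicity.of_prime_left hWp hϖ0
  rw [hf1.emultiplicity_eq_multiplicity, hf2.emultiplicity_eq_multiplicity] at h5
  exact ⟨_, by exact_mod_cast h5⟩

/-- an automorphism of a finite field kills the roots of an irreducible polynomial of degree `Y`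
after `Y` steps -/
theorem pow_fix {k κ : Type} [Field k] [Finite k] [Field κ] [Finite κ] [Algebra k κ]
    {h : k[X]} (hi : Irreducible h) {r : κ} (hr : aeval r h = 0) (τ : Gal(κ/k)) :
    (τ ^ h.natDegree) r = r := by
  let l := IntermediateField.adjoin k {r}
  have h1 : Normal k l := inferInstance
  let τ' : Gal(l/k) := AlgEquiv.restrictNormalHom l τ
  have h3 : τ' ^ h.natDegree = 1 := by
    rw [← natDegree_minpoly hi hr, ← IntermediateField.adjoin.finrank (int_el r),
      ← IsGalois.card_aut_eq_finrank]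
    exact pow_card_eq_one'
  have h4 : AlgEquiv.restrictNormalHom l (τ ^ h.natDegree) = 1 := by
    rw [map_pow]
    exact h3
  have h6 := AlgEquiv.restrictNormal_commutes (τ ^ h.natDegree) l
    ⟨r, IntermediateField.mem_adjoin_simple_self k r⟩
  have h7 : (AlgEquiv.restrictNormal (τ ^ h.natDegree) l) = 1 := h4
  rw [h7] at h6
  exact h6.symm

theorem exists_root {f : (𝓞 K)[X]} {n : ℕ} (hn : 0 < n) (hm : f.Monic) (hd : f.natDegree = n)
    (hs : (f.map (algebraMap (𝓞 K) L)).Splits) : ∃ α : 𝓞 L, aeval α f = 0 := by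
  obtain ⟨a, ha⟩ := hs.exists_eval_eq_zero (by
    rw [hm.degree_map, degree_eq_natDegree hm.ne_zero, hd]
    exact_mod_cast hn.ne')
  rw [eval_map_algebraMap] at ha
  obtain ⟨b, -, hb⟩ := exists_int hm ha
  exact ⟨b, hb⟩

variable [IsGalois K L]

/-- the decomposition group acts on the roots of a residually irreducible polynomial -/
theorem pow_smul_root (v : HeightOneSpectrum (𝓞 K)) (W : HeightOneSpectrum (𝓞 L))
    (hW : W.asIdeal.under (𝓞 K) = v.asIdeal) {h : (𝓞 K)[X]} (hm : h.Monic)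
    (hi : Irreducible (h.map (Ideal.Quotient.mk v.asIdeal)))
    (g : Gal(L/K)) (hg : g • W.asIdeal = W.asIdeal) {b : 𝓞 L} (hb : aeval b h = 0) :
    g ^ h.natDegree • b = b := by
  have hlies : W.asIdeal.LiesOver v.asIdeal := ⟨hW.symm⟩
  obtain ⟨τ, hτ⟩ := exists_residue_aut W.asIdeal v.asIdeal g hg
  have h1 := pow_fix (k := 𝓞 K ⧸ v.asIdeal) (κ := 𝓞 L ⧸ W.asIdeal) hi
    (aeval_mk W.asIdeal v.asIdeal hb) τ
  rw [hm.natDegree_map, pow_residue g τ hτ] at h1
  exact root_eq_sep (PerfectField.separable_of_irreducible (K := 𝓞 K ⧸ v.asIdeal) hi) W hW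
    (aeval_smul _ hb) hb h1

end

theorem exists_uniformizer (K : Type) [Field K] [NumberField K]
    (S : Finset (HeightOneSpectrum (𝓞 K))) :
    ∃ π : 𝓞 K, ∀ v ∈ S, π ∈ v.asIdeal ∧ π ∉ v.asIdeal ^ 2 := by
  classical
  have h0 : ∀ v : HeightOneSpectrum (𝓞 K), ∃ x ∈ v.asIdeal, x ∉ v.asIdeal ^ 2 := by
    intro v
    obtain ⟨x, h1, h2⟩ := Ideal.exists_mem_pow_notMem_pow_succ v.asIdeal v.ne_bot v.isPrime.ne_top 1
    rw [pow_one] at h1
    exact ⟨x, h1, h2⟩
  choose x hx1 hx2 using h0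
  obtain ⟨y, hy⟩ := IsDedekindDomain.exists_forall_sub_mem_ideal (s := S)
      (fun v : HeightOneSpectrum (𝓞 K) => v.asIdeal) (fun _ => 2) (fun v _ => v.prime)
      (fun v _ w _ hvw h => hvw (HeightOneSpectrum.ext h))
      (fun v => x v.1)
  refine ⟨y, fun v hv => ?_⟩
  have h3 := hy v hv
  have h4 : y - x v ∈ v.asIdeal := Ideal.pow_le_self (by norm_num) h3
  constructor
  · have := v.asIdeal.add_mem h4 (hx1 v)
    rwa [sub_add_cancel] at this
  · intro h5
    apply hx2 v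
    have := (v.asIdeal ^ 2).sub_mem h5 h3
    rwa [sub_sub_cancel] at this

/-- T3 (large decomposition groups): over every `M/K` there is a Galois extension `L/K` such that all
cyclic subgroups of the decomposition groups of the primes above `S` have index divisible by `m`. -/
theorem exists_big_index (K M : Type) [Field K] [NumberField K] [Field M] [NumberField M]
    [Algebra K M] [IsGalois K M] (S : Finset (HeightOneSpectrum (𝓞 K))) (m : ℕ) (hm : m ≠ 0) :
    ∃ (L : Type) (_ : Field L) (_ : NumberField L) (_ : Algebra K L) (_ : Algebra M L)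
      (_ : IsScalarTower K M L), IsGalois K L ∧
      ∀ W : HeightOneSpectrum (𝓞 L), (∃ v ∈ S, W.asIdeal.under (𝓞 K) = v.asIdeal) →
        ∀ g : Gal(L/K), g • W.asIdeal = W.asIdeal →
          m * orderOf g ∣ Nat.card (MulAction.stabilizer Gal(L/K) W.asIdeal) := by
  classical
  obtain ⟨π, hπ⟩ := exists_uniformizer K S
  have hf1 : (X ^ m - C (algebraMap (𝓞 K) M π) : M[X]).Monic := monic_X_pow_sub_C _ hm
  obtain ⟨L1, _, _, _, _, _, hG1, hs1, -⟩ := exists_L K M _ hf1.ne_zero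
  obtain ⟨h, hh1, hh2, hh3⟩ : ∃ h : (𝓞 K)[X], h.Monic ∧ h.natDegree = Nat.card Gal(L1/K) ∧
      ∀ v ∈ S, Irreducible (h.map (Ideal.Quotient.mk v.asIdeal)) := by
    have hY : Nat.card Gal(L1/K) ≠ 0 := Nat.card_pos.ne'
    choose p hp using fun v : HeightOneSpectrum (𝓞 K) => exists_irred (𝓞 K ⧸ v.asIdeal) hY
    obtain ⟨f, hf1, hf2, hf3⟩ := exists_monic_lift S (Nat.card Gal(L1/K)) p
      (fun v _ => (hp v).1) (fun v _ => (hp v).2.2)
    refine ⟨f, hf1, hf2, fun v hv => ?_⟩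
    rw [hf3 v hv]
    exact (hp v).2.1
  have hhm : (h.map (algebraMap (𝓞 K) L1)).Monic := hh1.map _
  obtain ⟨L, _, _, _, _, _, hG, hs, htr⟩ := exists_L K L1 _ hhm.ne_zero
  let _ : Algebra M L := ((algebraMap L1 L).comp (algebraMap M L1)).toAlgebra
  have tMLL : IsScalarTower M L1 L := IsScalarTower.of_algebraMap_eq fun x => rfl
  have tKML : IsScalarTower K M L := IsScalarTower.of_algebraMap_eq fun x => by
    rw [IsScalarTower.algebraMap_apply K L1 L, IsScalarTower.algebraMap_apply M L1 L,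
      IsScalarTower.algebraMap_apply K M L1]
  have t0 : IsScalarTower (𝓞 K) L1 L := IsScalarTower.of_algebraMap_eq fun x =>
    IsScalarTower.algebraMap_apply K L1 L (x : K)
  have t1 : IsScalarTower (𝓞 K) M L := IsScalarTower.of_algebraMap_eq fun x =>
    IsScalarTower.algebraMap_apply K M L (x : K)
  refine ⟨L, inferInstance, inferInstance, inferInstance, inferInstance, tKML, hG, ?_⟩
  rintro W ⟨v, hv, hWv⟩ g hg
  have hlies : W.asIdeal.LiesOver v.asIdeal := ⟨hWv.symm⟩
  -- the `Y`-th power of `g` is trivial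
  have hgY : g ^ Nat.card Gal(L1/K) = 1 := by
    refine htr _ ?_ ?_
    · intro x
      rw [← res_apply (K := K) (M := L1), map_pow, pow_card_eq_one', AlgEquiv.one_apply]
    · intro σ b hb
      rw [aeval_map_algebraMap] at hb
      obtain ⟨b', hb', hfb'⟩ := exists_int hh1 hb
      have h1 := pow_smul_root v W hWv hh1 (hh3 v hv) g hg (aeval_smul σ hfb')
      rw [hh2] at h1
      have h2 := congrArg (algebraMap (𝓞 L) L) h1
      rw [← hb']
      exact h2
  have hord : orderOf g ∣ Nat.card Gal(L1/K) := orderOf_dvd_of_pow_eq_one hgY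
  -- the residue degree
  have hdeg : Nat.card Gal(L1/K) ∣ W.asIdeal.inertiaDeg (𝓞 K) := by
    rw [Ideal.inertiaDeg_eq_of_isMaximal v.asIdeal W.asIdeal]
    have hs' : (h.map (algebraMap (𝓞 K) L)).Splits := by
      have h1 : h.map (algebraMap (𝓞 K) L) =
          (h.map (algebraMap (𝓞 K) L1)).map (algebraMap L1 L) := by
        rw [Polynomial.map_map, ← IsScalarTower.algebraMap_eq]
      rw [h1]
      exact hs
    obtain ⟨b, hb⟩ := exists_root (K := K) (L := L) (f := h) Nat.card_pos hh1 hh2 hs'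
    have h1 := dvd_finrank (k := 𝓞 K ⧸ v.asIdeal) (κ := 𝓞 L ⧸ W.asIdeal) (hh3 v hv)
      (aeval_mk W.asIdeal v.asIdeal hb)
    rw [hh1.natDegree_map, hh2] at h1
    exact h1
  -- the ramification index
  have hram : m ∣ W.asIdeal.ramificationIdx (𝓞 K) := by
    obtain ⟨a, ha⟩ := hs1.exists_eval_eq_zero (by
      rw [hf1.degree_map, degree_eq_natDegree hf1.ne_zero, natDegree_X_pow_sub_C]
      exact_mod_cast hm)
    rw [eval_map_algebraMap, map_sub, map_pow, aeval_X, aeval_C, sub_eq_zero] at ha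
    have h1 : aeval (algebraMap L1 L a) (X ^ m - C π : (𝓞 K)[X]) = 0 := by
      rw [map_sub, map_pow, aeval_X, aeval_C, ← map_pow, ha, ← IsScalarTower.algebraMap_apply,
        ← IsScalarTower.algebraMap_apply, sub_self]
    obtain ⟨ϖ, -, hϖ⟩ := exists_int (monic_X_pow_sub_C π hm) h1
    rw [map_sub, map_pow, aeval_X, aeval_C, sub_eq_zero] at hϖ
    exact dvd_ramificationIdx v W hWv (hπ v hv).1 (hπ v hv).2 hϖ
  have hcard : Nat.card (MulAction.stabilizer Gal(L/K) W.asIdeal) =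
      W.asIdeal.ramificationIdx (𝓞 K) * W.asIdeal.inertiaDeg (𝓞 K) := by
    rw [Ideal.card_stabilizer_eq v.asIdeal W.asIdeal,
      Ideal.ramificationIdxIn_eq_ramificationIdx v.asIdeal W.asIdeal Gal(L/K),
      Ideal.inertiaDegIn_eq_inertiaDeg v.asIdeal W.asIdeal Gal(L/K)]
  rw [hcard]
  exact mul_dvd_mul hram (hord.trans hdeg)

end Pool.Agent.H58.OP
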