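import Pool.Agent.H46.OP.Approx

/-! Descent of the reduction type. -/

set_option autoImplicit false
set_option linter.unusedSectionVars false

namespace Pool.Agent.H58.OP

open NumberField IsDedekindDomain Polynomial WithZero
open scoped Pointwise Topology
open Pool.Agent.H46.SP Pool.Agent.H46.OP

section
variable {F L : Type} [Field F] [NumberField F] [Field L] [NumberField L] [Algebra F L]

/-- elements fixed by the decomposition group are limits of elements of the base -/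
theorem approx_field [IsGalois F L] (W : HeightOneSpectrum (𝓞 L)) (c : L)
    (hc : ∀ σ : Gal(L/F), σ • W.asIdeal = W.asIdeal → σ c = c)
    {γ : WithZero (Multiplicative ℤ)} (hγ : γ ≠ 0) :
    ∃ a : F, W.valuation L (algebraMap F L a - c) < γ := by
  obtain ⟨y, hy0, hy⟩ := exists_integral_multiples ℤ ℚ (L := L) {c}
  have hy1 := hy c (Finset.mem_singleton_self c)
  obtain ⟨x, hx⟩ : ∃ x : 𝓞 L, (x : L) = y • c := ⟨⟨y • c, hy1⟩, rfl⟩
  have hyL : (y : L) ≠ 0 := by exact_mod_cast hy0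
  have hyF : (y : F) ≠ 0 := by exact_mod_cast hy0
  have hvy : W.valuation L (y : L) ≠ 0 := by
    rwa [Ne, Valuation.zero_iff]
  have hg : γ * W.valuation L (y : L) ≠ 0 := mul_ne_zero hγ hvy
  obtain ⟨k, hk⟩ : ∃ k : ℕ, exp (-(k : ℤ)) < γ * W.valuation L (y : L) := by
    refine ⟨(-(log (γ * W.valuation L (y : L)))).toNat + 1, ?_⟩
    rw [← exp_log hg, exp_lt_exp, log_exp]
    push_cast
    have := Int.self_le_toNat (-(log (γ * W.valuation L (y : L))))
    linarith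
  have hxc : ∀ σ : Gal(L/F), σ • W.asIdeal = W.asIdeal → σ • x = x := by
    intro σ hσ
    apply RingOfIntegers.coe_injective (K := L)
    change σ (x : L) = (x : L)
    rw [hx, map_zsmul, hc σ hσ]
  obtain ⟨a, ha⟩ := approx W.asIdeal W.isPrime W.ne_bot x hxc k
  refine ⟨(a : F) / (y : F), ?_⟩
  have h1 : algebraMap F L ((a : F) / (y : F)) - c =
      ((algebraMap (𝓞 F) (𝓞 L) a - x : 𝓞 L) : L) / (y : L) := by
    rw [map_div₀, map_intCast, eq_div_iff hyL, sub_mul, div_mul_cancel₀ _ hyL]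
    have h2 : c * (y : L) = (x : L) := by rw [hx, zsmul_eq_mul, mul_comm]
    rw [h2]
    rfl
  rw [h1, map_div₀, div_lt_iff₀ (zero_lt_iff.2 hvy)]
  refine lt_of_le_of_lt ?_ hk
  change W.valuation L (algebraMap (𝓞 L) L (algebraMap (𝓞 F) (𝓞 L) a - x)) ≤ _
  rw [HeightOneSpectrum.valuation_of_algebraMap, HeightOneSpectrum.intValuation_le_pow_iff_mem]
  exact ha

/-- integral elements below -/
theorem exists_denom (w : HeightOneSpectrum (𝓞 F))
    (W : HeightOneSpectrum (𝓞 L)) (hw : W.asIdeal.under (𝓞 F) = w.asIdeal) (x : F)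
    (hx : W.valuation L (algebraMap F L x) ≤ 1) :
    ∃ n d : 𝓞 F, d ∉ w.asIdeal ∧ x * algebraMap (𝓞 F) F d = algebraMap (𝓞 F) F n := by
  have hmem : ∀ y : 𝓞 F, W.valuation L (algebraMap F L y) < 1 ↔ y ∈ w.asIdeal := by
    intro y
    have h1 : algebraMap F L y = algebraMap (𝓞 L) L (algebraMap (𝓞 F) (𝓞 L) y) := rfl
    rw [h1, HeightOneSpectrum.valuation_lt_one_iff_mem, ← hw]
    rfl
  obtain ⟨n, d, h | h⟩ := HeightOneSpectrum.exists_primeCompl_mul_eq_or_mul_eq w x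
  · exact ⟨n, d, d.2, h⟩
  · refine ⟨d, n, ?_, h⟩
    intro hn
    have h2 := congrArg (fun z => W.valuation L (algebraMap F L z)) h
    simp only [map_mul] at h2
    have h3 := (hmem n).2 hn
    have h4 : ¬ W.valuation L (algebraMap F L (d : 𝓞 F)) < 1 := fun h => d.2 ((hmem _).1 h)
    apply h4
    rw [← h2]
    exact lt_of_le_of_lt (mul_le_of_le_one_left' hx) h3

/-- the polynomials of the change of variables -/
def pol (E : WeierstrassCurve L) (i : Fin 5) (p : L × L × L × L) : L :=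
  match i with
  | 0 => p.1 * (E.a₁ + 2 * p.2.2.1)
  | 1 => p.1 ^ 2 * (E.a₂ - p.2.2.1 * E.a₁ + 3 * p.2.1 - p.2.2.1 ^ 2)
  | 2 => p.1 ^ 3 * (E.a₃ + p.2.1 * E.a₁ + 2 * p.2.2.2)
  | 3 => p.1 ^ 4 * (E.a₄ - p.2.2.1 * E.a₃ + 2 * p.2.1 * E.a₂ -
      (p.2.2.2 + p.2.1 * p.2.2.1) * E.a₁ + 3 * p.2.1 ^ 2 - 2 * p.2.2.1 * p.2.2.2)
  | 4 => p.1 ^ 6 * (E.a₆ + p.2.1 * E.a₄ + p.2.1 ^ 2 * E.a₂ + p.2.1 ^ 3 - p.2.2.2 * E.a₃ -
      p.2.2.2 ^ 2 - p.2.1 * p.2.2.2 * E.a₁)

/-- the coefficients -/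
def coe5 {R : Type} (E : WeierstrassCurve R) (i : Fin 5) : R :=
  match i with
  | 0 => E.a₁
  | 1 => E.a₂
  | 2 => E.a₃
  | 3 => E.a₄
  | 4 => E.a₆

/-- the weights -/
def wt (i : Fin 5) : ℕ :=
  match i with
  | 0 => 1
  | 1 => 2
  | 2 => 3
  | 3 => 4
  | 4 => 6

theorem coe5_smul (E : WeierstrassCurve L) (C : WeierstrassCurve.VariableChange L) (i : Fin 5) :
    coe5 (C • E) i = pol E i ((C.u⁻¹ : Lˣ), C.r, C.s, C.t) := by
  fin_cases i <;> rfl

theorem coe5_ext {R : Type} {E E' : WeierstrassCurve R} (h : ∀ i, coe5 E i = coe5 E' i) :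
    E = E' :=
  WeierstrassCurve.ext (h 0) (h 1) (h 2) (h 3) (h 4)

theorem coe5_map {R S : Type} [CommRing R] [CommRing S] (φ : R →+* S) (E : WeierstrassCurve R)
    (i : Fin 5) : coe5 (E.map φ) i = φ (coe5 E i) := by
  fin_cases i <;> rfl

theorem continuous_pol [TopologicalSpace L] [IsTopologicalRing L] (E : WeierstrassCurve L)
    (i : Fin 5) : Continuous (pol E i) := by
  unfold pol
  fin_cases i <;> dsimp only <;> fun_prop

theorem exists_approx_curve [IsGalois F L] (W : HeightOneSpectrum (𝓞 L))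
    (E : WeierstrassCurve L) (C : WeierstrassCurve.VariableChange L)
    (hD : ∀ σ : Gal(L/F), σ • W.asIdeal = W.asIdeal →
      σ ((C.u⁻¹ : Lˣ) : L) = (C.u⁻¹ : Lˣ) ∧ σ C.r = C.r ∧ σ C.s = C.s ∧ σ C.t = C.t) :
    ∃ q r s t : F, q ≠ 0 ∧ ∀ i, W.valuation L
      (pol E i (algebraMap F L q, algebraMap F L r, algebraMap F L s, algebraMap F L t) -
        coe5 (C • E) i) < 1 := by
  let _ : Valued L (WithZero (Multiplicative ℤ)) := Valued.mk' (W.valuation L)
  have hcl : ∀ c : L, (∀ σ : Gal(L/F), σ • W.asIdeal = W.asIdeal → σ c = c) →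
      c ∈ closure (Set.range (algebraMap F L)) := by
    intro c hc
    rw [mem_closure_iff_nhds]
    intro t ht
    rw [Valued.mem_nhds] at ht
    obtain ⟨γ, hγ⟩ := ht
    have h1 : MonoidWithZeroHom.ValueGroup₀.embedding γ.1 ≠ 0 := by
      rw [Ne, map_eq_zero]
      exact γ.ne_zero
    obtain ⟨a, ha⟩ := approx_field W c hc h1
    refine ⟨algebraMap F L a, hγ ?_, ⟨a, rfl⟩⟩
    change (W.valuation L).restrict (algebraMap F L a - c) < γ.1
    rw [Valuation.restrict_lt_iff_lt_embedding]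
    exact ha
  have hball : ∀ x : L, {y : L | W.valuation L (y - x) < 1} ∈ 𝓝 x := by
    intro x
    rw [Valued.mem_nhds]
    refine ⟨1, fun y hy => ?_⟩
    have h1 : (W.valuation L).restrict (y - x) < 1 := hy
    rwa [Valuation.restrict_lt_one_iff] at h1
  set p0 : L × L × L × L := ((C.u⁻¹ : Lˣ), C.r, C.s, C.t) with hp0
  have hp0cl : p0 ∈ closure (Set.range (algebraMap F L) ×ˢ Set.range (algebraMap F L) ×ˢ
      Set.range (algebraMap F L) ×ˢ Set.range (algebraMap F L)) := by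
    rw [closure_prod_eq, closure_prod_eq, closure_prod_eq]
    refine ⟨hcl _ fun σ hσ => (hD σ hσ).1, hcl _ fun σ hσ => (hD σ hσ).2.1,
      hcl _ fun σ hσ => (hD σ hσ).2.2.1, hcl _ fun σ hσ => (hD σ hσ).2.2.2⟩
  have hU1 : ∀ i, {p : L × L × L × L | W.valuation L (pol E i p - coe5 (C • E) i) < 1} ∈ 𝓝 p0 := by
    intro i
    have h1 := (continuous_pol E i).continuousAt (x := p0)
    have h2 : pol E i p0 = coe5 (C • E) i := (coe5_smul E C i).symm
    have h3 := h1.preimage_mem_nhds (t := {y : L | W.valuation L (y - coe5 (C • E) i) < 1}) (by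
      rw [h2]
      exact hball _)
    exact h3
  have hU2 : {p : L × L × L × L | p.1 ≠ 0} ∈ 𝓝 p0 := by
    have h1 : ContinuousAt (fun p : L × L × L × L => p.1) p0 := continuous_fst.continuousAt
    exact h1.eventually_ne (C.u⁻¹).ne_zero
  have hU : {p : L × L × L × L | p.1 ≠ 0 ∧
      ∀ i, W.valuation L (pol E i p - coe5 (C • E) i) < 1} ∈ 𝓝 p0 := by
    filter_upwards [hU2, Filter.eventually_all.2 hU1] with p h1 h2
    exact ⟨h1, h2⟩
  obtain ⟨⟨q, r, s, t⟩, ⟨h1, h2⟩, ⟨q', hq⟩, ⟨r', hr⟩, ⟨s', hs⟩, ⟨t', ht⟩⟩ :=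
    mem_closure_iff_nhds.1 hp0cl _ hU
  simp only at hq hr hs ht h1
  subst hq hr hs ht
  refine ⟨q', r', s', t', ?_, h2⟩
  rintro rfl
  exact h1 (map_zero _)

theorem Δ_scale {R : Type} [CommRing R] (V : WeierstrassCurve R) (δ : R) :
    (⟨δ ^ 1 * V.a₁, δ ^ 2 * V.a₂, δ ^ 3 * V.a₃, δ ^ 4 * V.a₄, δ ^ 6 * V.a₆⟩ :
      WeierstrassCurve R).Δ = δ ^ 12 * V.Δ := by
  simp only [WeierstrassCurve.Δ, WeierstrassCurve.b₂, WeierstrassCurve.b₄, WeierstrassCurve.b₆,
    WeierstrassCurve.b₈]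
  ring

end

/-- T2 (descent): if a model of `E` over `L` which is good or split at `W` is obtained by a change of
variables fixed by the decomposition group of `W` in `Gal(L/F)`, then `E` is good or split below `W`. -/
theorem goodOrSplit_descent (F L : Type) [Field F] [NumberField F] [Field L] [NumberField L]
    [Algebra F L] [IsGalois F L] (E : WeierstrassCurve F) (w : HeightOneSpectrum (𝓞 F))
    (W : HeightOneSpectrum (𝓞 L)) (hw : W.asIdeal.under (𝓞 F) = w.asIdeal)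
    (V : WeierstrassCurve (𝓞 L)) (C : WeierstrassCurve.VariableChange L)
    (hC : C • V.map (algebraMap (𝓞 L) L) = E.map (algebraMap F L))
    (hV : V.Δ ∉ W.asIdeal ∨ (V.a₁ ∉ W.asIdeal ∧ V.a₂ ∈ W.asIdeal ∧ V.a₃ ∈ W.asIdeal ∧
      V.a₄ ∈ W.asIdeal ∧ V.a₆ ∈ W.asIdeal))
    (hD : ∀ σ : Gal(L/F), σ • W.asIdeal = W.asIdeal →
      σ (C.u : L) = C.u ∧ σ C.r = C.r ∧ σ C.s = C.s ∧ σ C.t = C.t) :
    GoodOrSplit E w := by
  classical
  have hC' : C⁻¹ • E.map (algebraMap F L) = V.map (algebraMap (𝓞 L) L) := by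
    rw [← hC, inv_smul_smul]
  obtain ⟨q, r, s, t, hq, hqrst⟩ := exists_approx_curve (F := F) W (E.map (algebraMap F L)) C⁻¹ (by
    intro σ hσ
    obtain ⟨h1, h2, h3, h4⟩ := hD σ hσ
    have h1' : σ ((C.u⁻¹ : Lˣ) : L) = (C.u⁻¹ : Lˣ) := by
      rw [Units.val_inv_eq_inv_val, map_inv₀, h1]
    rw [WeierstrassCurve.VariableChange.inv_def]
    dsimp only
    refine ⟨?_, ?_, ?_, ?_⟩
    · rw [inv_inv, h1]
    · rw [map_mul, map_neg, map_pow, h1', h2]
    · rw [map_mul, map_neg, h1', h3]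
    · rw [map_mul, map_sub, map_mul, map_pow, h1', h2, h3, h4])
  rw [hC'] at hqrst
  let C2 : WeierstrassCurve.VariableChange F := ⟨(Units.mk0 q hq)⁻¹, r, s, t⟩
  have h1 : ∀ i, algebraMap F L (coe5 (C2 • E) i) = pol (E.map (algebraMap F L)) i
      (algebraMap F L q, algebraMap F L r, algebraMap F L s, algebraMap F L t) := by
    intro i
    rw [coe5_smul]
    have h0 : ((C2.u⁻¹ : Fˣ) : F) = q := by
      change (((Units.mk0 q hq)⁻¹⁻¹ : Fˣ) : F) = q
      rw [inv_inv]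
      rfl
    rw [h0]
    have e2 : algebraMap F L 2 = 2 := map_ofNat _ 2
    have e3 : algebraMap F L 3 = 3 := map_ofNat _ 3
    unfold pol
    fin_cases i <;> simp [C2, e2, e3]
  have h2 : ∀ i, W.valuation L (algebraMap F L (coe5 (C2 • E) i) -
      algebraMap (𝓞 L) L (coe5 V i)) < 1 := by
    intro i
    rw [h1, ← coe5_map]
    exact hqrst i
  have h3 : ∀ i, W.valuation L (algebraMap F L (coe5 (C2 • E) i)) ≤ 1 := by
    intro i
    have h4 := (W.valuation L).map_add (algebraMap F L (coe5 (C2 • E) i) -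
      algebraMap (𝓞 L) L (coe5 V i)) (algebraMap (𝓞 L) L (coe5 V i))
    rw [sub_add_cancel] at h4
    exact h4.trans (max_le (h2 i).le (W.valuation_le_one _))
  choose n d hd hnd using fun i => exists_denom w W hw _ (h3 i)
  let δ : 𝓞 F := ∏ i, d i
  have hδw : δ ∉ w.asIdeal := by
    intro h
    obtain ⟨i, -, hi⟩ := (Ideal.IsPrime.prod_mem_iff (hp := w.isPrime)).1 h
    exact hd i hi
  have hδ0 : algebraMap (𝓞 F) F δ ≠ 0 := by
    intro h
    apply hδw
    have : δ = 0 := RingOfIntegers.coe_injective (K := F) (by rw [map_zero]; exact h)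
    rw [this]
    exact Ideal.zero_mem _
  have h4 : ∀ i, ∃ m : 𝓞 F, algebraMap (𝓞 F) F δ ^ wt i * coe5 (C2 • E) i =
      algebraMap (𝓞 F) F m := by
    intro i
    have hwt : wt i = (wt i - 1) + 1 := by fin_cases i <;> rfl
    refine ⟨δ ^ (wt i - 1) * ((∏ j ∈ Finset.univ.erase i, d j) * n i), ?_⟩
    have h5 : δ = d i * ∏ j ∈ Finset.univ.erase i, d j :=
      (Finset.mul_prod_erase Finset.univ d (Finset.mem_univ i)).symm
    have h6 : algebraMap (𝓞 F) F δ = algebraMap (𝓞 F) F (d i) *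
        algebraMap (𝓞 F) F (∏ j ∈ Finset.univ.erase i, d j) := by
      conv_lhs => rw [h5]
      exact map_mul (algebraMap (𝓞 F) F) _ _
    rw [map_mul, map_mul, map_pow, ← hnd i]
    calc algebraMap (𝓞 F) F δ ^ wt i * coe5 (C2 • E) i
        = algebraMap (𝓞 F) F δ ^ (wt i - 1 + 1) * coe5 (C2 • E) i := by rw [← hwt]
      _ = algebraMap (𝓞 F) F δ ^ (wt i - 1) * (algebraMap (𝓞 F) F δ * coe5 (C2 • E) i) := by
          rw [pow_succ, mul_assoc]
      _ = algebraMap (𝓞 F) F δ ^ (wt i - 1) * ((algebraMap (𝓞 F) F (d i) *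
            algebraMap (𝓞 F) F (∏ j ∈ Finset.univ.erase i, d j)) * coe5 (C2 • E) i) := by
          rw [← h6]
      _ = _ := by ring
  choose m hm using h4
  let V' : WeierstrassCurve (𝓞 F) := ⟨m 0, m 1, m 2, m 3, m 4⟩
  have hV' : ∀ i, coe5 V' i = m i := by
    intro i
    fin_cases i <;> rfl
  let C3 : WeierstrassCurve.VariableChange F :=
    ⟨(Units.mk0 (algebraMap (𝓞 F) F δ) hδ0)⁻¹, 0, 0, 0⟩
  have h5 : C3 • C2 • E = V'.map (algebraMap (𝓞 F) F) := by
    refine coe5_ext fun i => ?_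
    rw [coe5_map, hV', ← hm, coe5_smul]
    unfold pol coe5 wt
    fin_cases i <;> simp [C3]
  let φ : 𝓞 F →+* 𝓞 L ⧸ W.asIdeal :=
    (Ideal.Quotient.mk W.asIdeal).comp (algebraMap (𝓞 F) (𝓞 L))
  have hφ : ∀ x : 𝓞 F, φ x = 0 ↔ x ∈ w.asIdeal := by
    intro x
    rw [← hw]
    exact Ideal.Quotient.eq_zero_iff_mem
  have h6 : ∀ i, φ (m i) = φ δ ^ wt i * Ideal.Quotient.mk W.asIdeal (coe5 V i) := by
    intro i
    rw [← map_pow]
    change Ideal.Quotient.mk W.asIdeal (algebraMap (𝓞 F) (𝓞 L) (m i)) =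
      Ideal.Quotient.mk W.asIdeal (algebraMap (𝓞 F) (𝓞 L) (δ ^ wt i)) * _
    rw [← map_mul, Ideal.Quotient.eq, ← HeightOneSpectrum.valuation_lt_one_iff_mem (K := L)]
    change W.valuation L (algebraMap (𝓞 L) L (algebraMap (𝓞 F) (𝓞 L) (m i) -
        algebraMap (𝓞 F) (𝓞 L) (δ ^ wt i) * coe5 V i)) < 1
    have h7 : algebraMap (𝓞 L) L (algebraMap (𝓞 F) (𝓞 L) (m i) -
        algebraMap (𝓞 F) (𝓞 L) (δ ^ wt i) * coe5 V i) =
        algebraMap (𝓞 L) L (algebraMap (𝓞 F) (𝓞 L) (δ ^ wt i)) *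
          (algebraMap F L (coe5 (C2 • E) i) - algebraMap (𝓞 L) L (coe5 V i)) := by
      have h8 : algebraMap (𝓞 L) L (algebraMap (𝓞 F) (𝓞 L) (m i)) =
        algebraMap F L (algebraMap (𝓞 F) F (m i)) := rfl
      have h9 : algebraMap (𝓞 L) L (algebraMap (𝓞 F) (𝓞 L) (δ ^ wt i)) =
        algebraMap F L (algebraMap (𝓞 F) F δ ^ wt i) := by rw [← map_pow (algebraMap (𝓞 F) F)]; rfl
      rw [map_sub, map_mul, h8, h9, ← hm, map_mul, mul_sub]
    rw [h7, map_mul]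
    exact lt_of_le_of_lt (mul_le_of_le_one_left' (W.valuation_le_one _)) (h2 i)
  have hmk : ∀ x : 𝓞 L, Ideal.Quotient.mk W.asIdeal x = 0 ↔ x ∈ W.asIdeal :=
    fun x => Ideal.Quotient.eq_zero_iff_mem
  have hdom : IsDomain (𝓞 L ⧸ W.asIdeal) := Ideal.Quotient.isDomain W.asIdeal
  have hφδ : φ δ ≠ 0 := fun h => hδw ((hφ δ).1 h)
  refine ⟨V', ⟨(C3 * C2)⁻¹, ?_⟩, ?_⟩
  · rw [← h5, ← mul_smul C3 C2 E, inv_smul_smul]
  · rcases hV with hV | ⟨hV1, hV2, hV3, hV4, hV5⟩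
    · left
      intro h
      rw [← hφ, ← WeierstrassCurve.map_Δ] at h
      have h7 : V'.map φ = ⟨φ δ ^ 1 * (V.map (Ideal.Quotient.mk W.asIdeal)).a₁,
          φ δ ^ 2 * (V.map (Ideal.Quotient.mk W.asIdeal)).a₂,
          φ δ ^ 3 * (V.map (Ideal.Quotient.mk W.asIdeal)).a₃,
          φ δ ^ 4 * (V.map (Ideal.Quotient.mk W.asIdeal)).a₄,
          φ δ ^ 6 * (V.map (Ideal.Quotient.mk W.asIdeal)).a₆⟩ :=
        WeierstrassCurve.ext (h6 0) (h6 1) (h6 2) (h6 3) (h6 4)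
      rw [h7, Δ_scale, WeierstrassCurve.map_Δ, mul_eq_zero, hmk] at h
      rcases h with h | h
      · exact hφδ (pow_eq_zero_iff (by norm_num) |>.1 h)
      · exact hV h
    · right
      have key : ∀ i, m i ∈ w.asIdeal ↔ coe5 V i ∈ W.asIdeal := by
        intro i
        rw [← hφ, h6, mul_eq_zero, hmk]
        have : φ δ ^ wt i ≠ 0 := pow_ne_zero _ hφδ
        tauto
      exact ⟨fun h => hV1 ((key 0).1 h), (key 1).2 hV2, (key 2).2 hV3, (key 3).2 hV4,
        (key 4).2 hV5⟩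

end Pool.Agent.H58.OP
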