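import Pool.Agent.H46.OP.CoreA
import Pool.Agent.H37.OP.Semistable
import Pool.Agent.H58.OP.Desc

/-! OP4: the elliptic part of one bad place. -/

set_option autoImplicit false
set_option linter.unusedSectionVars false

namespace Pool.Agent.H58.OP

open NumberField IsDedekindDomain
open scoped Pointwise
open Pool.Agent.H46.SP Pool.Agent.H46.OP

/-- base change of a good or split model -/
theorem goodOrSplit_map {F F' : Type} [Field F] [NumberField F] [Field F'] [NumberField F']
    [Algebra F F'] (E : WeierstrassCurve F) (w : HeightOneSpectrum (𝓞 F))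
    (w' : HeightOneSpectrum (𝓞 F')) (hw : w'.asIdeal.under (𝓞 F) = w.asIdeal)
    (h : GoodOrSplit E w) : GoodOrSplit (E.map (algebraMap F F')) w' := by
  obtain ⟨V, ⟨C, hC⟩, hV⟩ := h
  have hmem : ∀ x : 𝓞 F, algebraMap (𝓞 F) (𝓞 F') x ∈ w'.asIdeal ↔ x ∈ w.asIdeal := by
    intro x
    rw [← hw]
    rfl
  refine ⟨V.map (algebraMap (𝓞 F) (𝓞 F')), ⟨C.map (algebraMap F F'), ?_⟩, ?_⟩
  · have h1 : (V.map (algebraMap (𝓞 F) (𝓞 F'))).map (algebraMap (𝓞 F') F') =
        (V.map (algebraMap (𝓞 F) F)).map (algebraMap F F') := by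
      rw [WeierstrassCurve.map_map, WeierstrassCurve.map_map]
      rfl
    rw [h1, WeierstrassCurve.map_variableChange, hC]
  · simp only [WeierstrassCurve.map_Δ, WeierstrassCurve.map_a₁, WeierstrassCurve.map_a₂,
      WeierstrassCurve.map_a₃, WeierstrassCurve.map_a₄, WeierstrassCurve.map_a₆, hmem]
    exact hV

/-- an elliptic curve has finitely many primes of bad reduction -/
theorem finite_bad {K : Type} [Field K] [NumberField K] (E : WeierstrassCurve K)
    [E.IsElliptic] : {v : HeightOneSpectrum (𝓞 K) | ¬ GoodOrSplit E v}.Finite := by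
  have fin : ∀ x : K, {v : HeightOneSpectrum (𝓞 K) | 1 < v.valuation K x}.Finite := fun x =>
    HeightOneSpectrum.Support.finite (𝓞 K) x
  have hΔ : E.Δ ≠ 0 := E.isUnit_Δ.ne_zero
  refine ((((((fin E.a₁).union (fin E.a₂)).union (fin E.a₃)).union (fin E.a₄)).union
    (fin E.a₆)).union ((fin E.Δ).union (fin E.Δ⁻¹))).subset ?_
  intro v hv
  by_contra hn
  apply hv
  simp only [Set.mem_union, Set.mem_ofPred_eq, not_or, not_lt] at hn
  obtain ⟨⟨⟨⟨⟨h1, h2⟩, h3⟩, h4⟩, h6⟩, h7, h8⟩ := hn
  refine Pool.Agent.H37.OP.goodOrSplit_of_LC v E E 1 (one_smul _ E) ⟨⟨h1, h2, h3, h4, h6⟩, Or.inl ?_⟩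
  refine le_antisymm h7 ?_
  rw [map_inv₀] at h8
  have h9 : v.valuation K E.Δ ≠ 0 := by rwa [Ne, Valuation.zero_iff]
  exact (inv_le_one₀ (zero_lt_iff.2 h9)).1 h8

section
variable {K M L : Type} [Field K] [NumberField K] [Field M] [NumberField M] [Field L]
  [NumberField L] [Algebra K M] [Algebra M L] [Algebra K L] [IsScalarTower K M L]
  [IsGalois K M] [IsGalois K L]

/-- not a bad prime: good or split -/
theorem goodAt_of_not_bad (E : WeierstrassCurve K)
    (hM : ∀ w : HeightOneSpectrum (𝓞 M), GoodOrSplit (E.map (algebraMap K M)) w)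
    (H : Subgroup Gal(L/K)) (W : HeightOneSpectrum (𝓞 L))
    (hb : ∀ h ∈ H, h • W.asIdeal = W.asIdeal → res K M h = 1)
    (w : HeightOneSpectrum (𝓞 (IntermediateField.fixedField H)))
    (hw : W.asIdeal.under (𝓞 (IntermediateField.fixedField H)) = w.asIdeal) :
    GoodOrSplit (E.map (algebraMap K (IntermediateField.fixedField H))) w := by
  obtain ⟨wM, hwM⟩ := exists_under (K := M) W
  obtain ⟨V, ⟨C, hC⟩, hV⟩ := hM wM
  have hmem : ∀ x : 𝓞 M, algebraMap (𝓞 M) (𝓞 L) x ∈ W.asIdeal ↔ x ∈ wM.asIdeal := by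
    intro x
    rw [← hwM]
    rfl
  refine goodOrSplit_descent (IntermediateField.fixedField H) L
    (E.map (algebraMap K (IntermediateField.fixedField H))) w W hw
    (V.map (algebraMap (𝓞 M) (𝓞 L))) (C.map (algebraMap M L)) ?_ ?_ ?_
  · have h1 : (V.map (algebraMap (𝓞 M) (𝓞 L))).map (algebraMap (𝓞 L) L) =
        (V.map (algebraMap (𝓞 M) M)).map (algebraMap M L) := by
      rw [WeierstrassCurve.map_map, WeierstrassCurve.map_map]
      rfl
    rw [h1, WeierstrassCurve.map_variableChange, hC, WeierstrassCurve.map_map,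
      WeierstrassCurve.map_map, ← IsScalarTower.algebraMap_eq]
    rfl
  · simp only [WeierstrassCurve.map_Δ, WeierstrassCurve.map_a₁, WeierstrassCurve.map_a₂,
      WeierstrassCurve.map_a₃, WeierstrassCurve.map_a₄, WeierstrassCurve.map_a₆, hmem]
    exact hV
  · intro σ hσ
    have hfix : ∀ x : M, σ (algebraMap M L x) = algebraMap M L x := by
      intro x
      let σ' : Gal(L/K) := σ.restrictScalars K
      have hσH : σ' ∈ H := by
        have h1 : σ' ∈ (IntermediateField.fixedField H).fixingSubgroup := by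
          rw [IntermediateField.mem_fixingSubgroup_iff]
          intro y hy
          exact σ.commutes (⟨y, hy⟩ : IntermediateField.fixedField H)
        rwa [IntermediateField.fixingSubgroup_fixedField] at h1
      have hσW : σ' • W.asIdeal = W.asIdeal := hσ
      have h2 := hb σ' hσH hσW
      have h3 : σ' (algebraMap M L x) = algebraMap M L x := by
        rw [← res_apply (K := K), h2]
        rfl
      exact h3
    exact ⟨hfix _, hfix _, hfix _, hfix _⟩

/-- at most one bad prime for `E` -/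
theorem oneBad_field (E : WeierstrassCurve K)
    (S : Finset (HeightOneSpectrum (𝓞 K)))
    (hS : ∀ v : HeightOneSpectrum (𝓞 K), v ∉ S → GoodOrSplit E v)
    (hM : ∀ w : HeightOneSpectrum (𝓞 M), GoodOrSplit (E.map (algebraMap K M)) w)
    (H : Subgroup Gal(L/K))
    (hH : OneBadA ((⊥ : Subgroup Gal(M/K)) : Set Gal(M/K)) S H)
    (w w' : HeightOneSpectrum (𝓞 (IntermediateField.fixedField H)))
    (hw : ¬ GoodOrSplit (E.map (algebraMap K (IntermediateField.fixedField H))) w)
    (hw' : ¬ GoodOrSplit (E.map (algebraMap K (IntermediateField.fixedField H))) w') :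
    w = w' := by
  have key : ∀ w : HeightOneSpectrum (𝓞 (IntermediateField.fixedField H)),
      ¬ GoodOrSplit (E.map (algebraMap K (IntermediateField.fixedField H))) w →
      ∃ W : HeightOneSpectrum (𝓞 L), W.asIdeal.under (𝓞 (IntermediateField.fixedField H)) =
        w.asIdeal ∧ Over S W ∧ BadAtA ((⊥ : Subgroup Gal(M/K)) : Set Gal(M/K)) H W := by
    intro w hw
    obtain ⟨W, hW⟩ := exists_above (M := IntermediateField.fixedField H) (L := L) w
    refine ⟨W, hW, ?_, ?_⟩
    · by_contra hn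
      obtain ⟨v, hv⟩ := exists_under (K := K) W
      have hvS : v ∉ S := fun h => hn ⟨v, h, hv⟩
      apply hw
      refine goodOrSplit_map E v w ?_ (hS v hvS)
      rw [← hv, ← hW]
      ext x
      change algebraMap (𝓞 (IntermediateField.fixedField H)) (𝓞 L)
        (algebraMap (𝓞 K) (𝓞 (IntermediateField.fixedField H)) x) ∈ W.asIdeal ↔
        algebraMap (𝓞 K) (𝓞 L) x ∈ W.asIdeal
      have h0 : algebraMap (𝓞 (IntermediateField.fixedField H)) (𝓞 L)
        (algebraMap (𝓞 K) (𝓞 (IntermediateField.fixedField H)) x) = algebraMap (𝓞 K) (𝓞 L) x := by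
        apply RingOfIntegers.coe_injective (K := L)
        rfl
      rw [h0]
    · by_contra hn
      apply hw
      refine goodAt_of_not_bad (M := M) E hM H W ?_ w hW
      intro h hh hhW
      by_contra h1
      exact hn ⟨h, hh, hhW, h1⟩
  obtain ⟨W, h1, h2, h3⟩ := key w hw
  obtain ⟨W', h1', h2', h3'⟩ := key w' hw'
  obtain ⟨τ, hτ, hτW⟩ := hH W W' h2 h2' h3 h3'
  apply HeightOneSpectrum.ext
  rw [← h1, ← h1', ← hτW]
  ext x
  change algebraMap _ (𝓞 L) x ∈ W.asIdeal ↔ algebraMap _ (𝓞 L) x ∈ τ • W.asIdeal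
  rw [Ideal.mem_pointwise_smul_iff_inv_smul_mem]
  have h4 : τ⁻¹ • algebraMap (𝓞 (IntermediateField.fixedField H)) (𝓞 L) x =
      algebraMap (𝓞 (IntermediateField.fixedField H)) (𝓞 L) x := by
    apply RingOfIntegers.coe_injective (K := L)
    have h5 : ((x : IntermediateField.fixedField H) : L) ∈ IntermediateField.fixedField H :=
      (x : IntermediateField.fixedField H).2
    exact h5 ⟨τ⁻¹, H.inv_mem hτ⟩
  rw [h4]

end

end Pool.Agent.H58.OP
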